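import Pool.Agent.Q68.OV.One

/-!
# Zero-cycles on one K3 surface and finitely many cubics `T(x, y, z) = 1`

Let `k` be a number field or `ℚ̄`, and let `X` be **one** K3 surface over `k`. Choose a smooth projective
scheme `S` of dimension two over `ℚ` such that `X` is a union of connected components of `S_k` (for a number
field `k` the scheme `X` over `ℚ`; for `k = ℚ̄` a surface over a number field which defines `X`). The question
Q1 for `X` is whether `CH^2(X)_0 ⊗ ℚ = 0` (`Trivial`).

For a smooth projective scheme `Y` over `ℚ` let `B^m(Y)` be the subspace of `CH^m(Y_k)_ℚ` generated by the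
cycles `c_* z`, for the cycles `c` of codimension `m` on `S_k × Y_k` and for `z` in
`CH^2(X)_0 ⊗ ℚ ⊆ CH^2(S_k)_ℚ`. It is an additive functor of the Chow motive of `Y_k`, and it is zero if and
only if all `c_* z` are zero (`Killed`). For a separated scheme `Z` of finite type over `ℚ` let `W(Z)` be
the weight complex of `Z_k` (Gillet, Soulé; a complex of Chow motives for the cohomology with compact
supports; `W(Z) = h(Z_k)` for smooth projective `Z`), and put `B^{m,i}(Z) = H^i(B^m(W(Z)))`, `A^{m,i}(Z) = 0`.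
`At C m Z` says that the maps `A^{m,i}(Z) → B^{m,i}(Z)` are isomorphisms, that is `B^{m,i}(Z) = 0`, for this
`m` and all `i`, and `BijAll C Z` that this is so for all `m` and `i`.

**Theorem.** There are finite lists `L`, `L'` of trilinear forms over `ℚ` and a finite list `G` of
tripartite hypergraphs, which depend only on `S`, with the following properties.

(1) Each form in `L` has at least four variables in each of its three blocks, and exactly **four** in one
of them. The group `CH^2(X)_0 ⊗ ℚ` is zero if and only if `B^{m,i}(Z) = 0` for all `m` and `i` and the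
finitely many smooth affine cubic hypersurfaces `Z : T(x, y, z) = 1`, `T` in `L`. If it is zero,
`B^{m,i}(Z) = 0` for all `T` over `ℚ`.

(2) It is zero if and only if, for the finitely many hypersurfaces `Z : T = 1`, `T` in `L'`, and the **one**
index `m = a + 1`, `a` the number of the variables `x_i`, the groups `B^{m,i}(Z)` are zero for all `i`.

(3) It is zero if and only if `B^{m,i}(Z) = 0` for all `m` and `i` and the finitely many hypersurfaces
`Z : ∑_{(i, j, l) ∈ H} x_i y_j z_l = 1`, `H` in `G`.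

(4) Unconditionally `B^{m,i}(Z) = 0` for all forms with a block of at most three variables, and for all
forms if `m ≤ a`.

Proof. As the Albanese variety of `X` is zero, `c_* z = 0` for all `z` of degree zero if `m ≤ 1`
(`divisors`), and therefore for all `m` if `Y` is a curve (`curves`); the rest is the universality of
trilinear forms, made finite (`Q68.OV.Finite`, `Q68.OV.One`).
-/

set_option autoImplicit false

open CategoryTheory CategoryTheory.Limits AlgebraicGeometry Pool.Agent.Y116.UV Pool.Agent.Z125.UN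
  Pool.Agent.Q193.LT Pool.Agent.Q49.WU Pool.Agent.Q68.OV

universe w u

namespace Pool.Agent.Results.MP_9207e0_ag.FinitelyManyCubics

/-- The Chow groups of the schemes `Y_k`, and the zero-cycles of degree zero on a K3 surface `X`, a union
of connected components of `S_k`. -/
structure ChowData (S : Sch ℚ) where
  /-- `CH^m(Y_k)_ℚ` -/
  CH : ℤ → Sch ℚ → ModuleCat.{w} ℚ
  /-- the cycles of codimension `m` on `S_k × Y_k` -/
  Cyc : ℤ → Sch ℚ → Type u
  /-- the operation `c_*` of the cycle `c` -/
  act : ∀ {m : ℤ} {Y : Sch ℚ}, Cyc m Y → CH 2 S →ₗ[ℚ] CH m Y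
  /-- the diagonal of `S_k × S_k` -/
  diag : Cyc 2 S
  /-- `CH^2(X)_0 ⊗ ℚ`, in `CH^2(S_k)_ℚ` -/
  zero : Submodule ℚ (CH 2 S)

/-- The diagonal operates as the identity. -/
def IsChow {S : Sch ℚ} (D : ChowData.{w, u} S) : Prop := ∀ x, D.act D.diag x = x

/-- The statement of Q1 for `X`: `CH^2(X)_0 ⊗ ℚ = 0`. -/
def Trivial {S : Sch ℚ} (D : ChowData.{w, u} S) : Prop := D.zero = ⊥

/-- All images of the zero-cycles of degree zero on `X` in `CH^m(Y_k)_ℚ` are zero. -/
def Killed {S : Sch ℚ} (D : ChowData.{w, u} S) (m : ℤ) (Y : Sch ℚ) : Prop :=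
  ∀ c : D.Cyc m Y, ∀ x ∈ D.zero, D.act c x = 0

/-- The maps are isomorphisms (the groups `B^{m,i}(Z)` are zero) for the index `m`. -/
def At (C : PairData.{w} ℚ (ℤ × ℤ) ℚ) (m : ℤ) (Z : Sch ℚ) : Prop := BijAt C Prod.fst m Z

/-- **Zero-cycles on one K3 surface and finitely many cubics.** See the explanations above. -/
theorem result {S : Sch ℚ} (hS : SmoothProj S) (h2 : topologicalKrullDim S.left ≤ (2 : ℕ)) :
    ∃ (L L' : List (Form ℚ)) (G : List Graph), (∀ t ∈ L, t.Block 4 ∧ ¬ t.Block 3) ∧
      ∀ (D : ChowData.{w, u} S) (C : PairData.{w} ℚ (ℤ × ℤ) ℚ), IsChow D → IsWeightPair C →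
        WeightGen C → GenAt C Prod.fst →
        (∀ Y, SmoothProj Y → ∀ m, (At C m Y ↔ Killed D m Y)) →
        (curves : ∀ Y : Sch ℚ, SmoothProj Y → topologicalKrullDim Y.left ≤ (1 : ℕ) → BijAll C Y) →
        (divisors : ∀ m : ℤ, m ≤ 1 → ∀ Y : Sch ℚ, SmoothProj Y → At C m Y) →
        (Trivial D ↔ ∀ t ∈ L, BijAll C t.hyp) ∧
        (Trivial D ↔ ∀ t ∈ L', At C (t.a + 1) t.hyp) ∧
        (Trivial D ↔ ∀ g ∈ G, BijAll C (g.hyp ℚ)) ∧
        (Trivial D → ∀ t : Form ℚ, BijAll C t.hyp) ∧
        (∀ t : Form ℚ, t.Block 3 → BijAll C t.hyp) ∧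
        (∀ (t : Form ℚ) (m : ℤ), m ≤ t.a → At C m t.hyp) := by
  obtain ⟨L, L', G, hL, h⟩ := reach_finite.{w, 0, u} hS h2 1 2
  refine ⟨L, L', G, hL, fun D C hD hC hg hw bij curves divisors => ?_⟩
  let R : Reach.{w, 0, u} ℚ ℚ S 2 :=
    { H := D.CH, A := fun _ _ => ⊥, Corr := D.Cyc, act := D.act, one := D.diag,
      J := {x | x ∈ D.zero} }
  have hR : IsReach R := by
    refine ⟨fun m Y _ c x hx => ?_, hD⟩
    have h0 : x = 0 := hx
    rw [h0, map_zero]
    exact Submodule.zero_mem _
  have hB : Trivial D ↔ Holds R := (Submodule.eq_bot_iff _)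
  obtain ⟨h3, h4, h5, h6, h7⟩ := h ℚ R C hR hC hg bij curves
  have point : BijAll C (aff ℚ ℚ) := by
    refine hg 1 curves (aff ℚ ℚ) (ft_aff True) ?_
    rw [topDim_aff, ringKrullDim_eq_zero_of_field]
    exact_mod_cast Nat.zero_le 1
  have e : ∀ t : Form ℚ, (2 : ℤ) - 1 + t.a = t.a + 1 := fun t => by ring
  refine ⟨hB.trans h3, (hB.trans h4).trans ⟨fun h t ht => ?_, fun h t ht => ?_⟩,
    hB.trans (h5 frac_rat), fun hb => h6 (hB.mp hb), h7, fun t m hm => ?_⟩
  · have h1 := h t ht
    rwa [e t] at h1
  · rw [e t]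
    exact h t ht
  · have h2 := (sp_at_iff hw hC graded_weight point (m - (t.a - 1))).mp
      (divisors _ (by omega)) t.a t.b t.c t.T
    rwa [sub_add_cancel] at h2

end Pool.Agent.Results.MP_9207e0_ag.FinitelyManyCubics
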