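import Pool.Agent.Q72.DP.Cube

/-!
# Zero-cycles on surfaces over number fields and top intersections of divisors

`𝒱` is the class of smooth projective varieties over `k = ℚ̄` (or any class of smooth proper varieties
over a field `k` closed under products), `C` the Chow groups with rational coefficients (in the form
of their formal properties, `IsChowProj`); `numFam C X j ⊆ CH^j(X)` is the group of numerically
trivial classes. `Bun f m c ξ` means that `f` is the projective bundle of a vector bundle of rank `m`
with Chern classes `c`, and `ξ` is the class of `O(1)`; the hypothesis `RankTwoBundles` consists of the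
projective bundle formula and the known theorem of Schwarzenberger on rank two bundles on surfaces
(Serre's construction).

Theorem. For every surface `S` without numerically trivial divisors (for instance a K3 surface) the
following are equivalent:
* `CH²(S)` has dimension one;
* for every threefold `P` which is a `ℙ¹`-bundle over `S` and every divisor `G` on `P` with
  self-intersection number `(G³) = 0`: `G³ = 0` in `CH_0(P)`;
* for every projective bundle `P → S` of a vector bundle and all divisors `D_1, …, D_n` on `P`,
  `n = dim P`, with intersection number `(D_1 ⋯ D_n) = 0`: `D_1 ⋯ D_n = 0` in `CH_0(P)`.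
-/

open CategoryTheory AlgebraicGeometry

set_option autoImplicit false

universe u v w

namespace Pool.Agent.Results.MP_9207e0_ag.IntersectionNumbers

open Pool.Agent.H914 Pool.Agent.W492.BB Pool.Agent.TH133 Pool.Agent.TH829.Prime Pool.Agent.Q72.DP

/-- For a surface without numerically trivial divisors (a K3 surface), the group of zero-cycles has
dimension one if and only if the top intersections of divisors on projective bundles over `S` are
determined by their degree, and it suffices to test the cubes of divisors on `ℙ¹`-bundles. -/
theorem result {k : Type u} [Field k] {𝒱 : VarClass k} (C : TheoryData.{u, v, 0} 𝒱 ℚ)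
    [IsChowProj C] (hne : ∀ X : 𝒱.Obj, (1 : C.A X) ≠ 0) (Bun : BundleClass C)
    (hB : RankTwoBundles Bun) (S : 𝒱.Obj) (hS : S.dim = 2) (h1 : numFam C S 1 = ⊥) :
    [Module.finrank ℚ (C.gr S 2) = 1, CubesTrivial Bun S, ProductsTrivial Bun S].TFAE :=
  cube_tfae hne hB hS h1

end Pool.Agent.Results.MP_9207e0_ag.IntersectionNumbers
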