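import Pool.Agent.Q70.KM.Main

/-!
# Zero-cycles on Kummer surfaces of curves of genus two supported on the points over a subspace of
the Jacobian

Let `C` be a smooth projective curve over an algebraically closed field `k` of characteristic zero
(for example the field of algebraic numbers), with an automorphism `σ` and a point `W` such that
`P + σ(P)` is linearly equivalent to `2 W` for all points `P` of `C` (`Hyperelliptic`). Every curve
of genus two has these, the hyperelliptic involution and each of the six Weierstrass points. Let
`S = (C × C) / G` (`Kum`), the group `G` being generated by the exchange of the two factors and by
`σ × σ`. For a curve of genus two, `S` is birational to the Kummer surface of the Jacobian `J` of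
`C`, a K3 surface `X`: the image of `(P, Q)` is the image of the point `P + Q - 2 W` of `J`. The
groups of zero-cycles modulo rational equivalence, with rational coefficients, of `S` and `X`
are the same.

**Theorem.** Let `V` be a finite-dimensional subspace of `Pic(C) ⊗ ℚ` (more generally, a
vector space of finite dimension with a linear map `ι` to `Pic(C) ⊗ ℚ`). The zero-cycles of degree
zero on `S` which are supported on the images of the points `(P, Q)` with `P + Q - 2 W` in `V`
form a subspace of `CH_0(S) ⊗ ℚ` (`pointSpace`) whose dimension is finite and at most the dimension
of the space of the quadratic forms on `V` that vanish at all the elements `P - W` of `V`, `P` a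
point of `C` (`Forms`). In particular all these points have the same class, if no quadratic form on
`V` but `0` vanishes at all these `P - W`.

For instance, let the curve (of genus two) and `W` be defined over a number field `F`, and let `V`
be generated by `J(F)`, a space of the dimension `r = rank J(F)`. The theorem applies to all
`F`-rational points of `J` (and to all points which have a multiple in `J(F)`, a Zariski dense
set of points of `X`, if `r > 0` and `J` is simple): the classes of their images span a
space of finite dimension, at most `1 + r (r + 1) / 2`, and this dimension is one, as the
conjecture says, if the elements `P - W`, `P` in `C(F)`, do not lie on a quadric of `V`. For `r = 1`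
this means that there is a point `P` in `C(F)` such that `P - W` is not a torsion point, for `r = 2`
that there are three points `P_i` in `C(F)` such that the `P_i - W` are pairwise linearly
independent.

The surface and its zero-cycles are treated by explicit definitions: `C` is given by its function
field `K`, its points are the places of `K`, and zero-cycles rationally equivalent to zero are
spanned by the push-forwards of the divisors of functions on smooth projective curves.
-/

set_option autoImplicit false

namespace Pool.Agent.Results.MP_9207e0_ag.PointsOverSubspaces

open FF Pool.Agent.Q70.CH Pool.Agent.Q70.KM Module

/-- The zero-cycles of degree zero on `S = (C × C) / G` which are supported on the images of the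
points `(P, Q)` with `P + Q - 2 W` in `V` form a space of dimension at most the dimension of the
space of the quadratic forms on `V` vanishing at the elements `P - W` of `V`; if there is none but
`0`, all these points have the same class. -/
theorem result {k : Type} [Field k] [CharZero k] [IsAlgClosed k] {K : Type} [Field K]
    [Algebra k K] [IsFF k K] (σ : K ≃ₐ[k] K) (W : Place k K) (h : Hyperelliptic σ W)
    {V : Type} [AddCommGroup V] [Module ℚ V] [FiniteDimensional ℚ V] (ι : V →ₗ[ℚ] PicQ k K) :
    FiniteDimensional ℚ (pointSpace σ W ι) ∧
      finrank ℚ (pointSpace σ W ι) ≤ finrank ℚ (Forms W ι) ∧
      (Forms W ι = ⊥ → ∀ P Q : Place k K, LiesOver W ι P Q →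
        point σ P Q = point σ W W) := by
  obtain ⟨h1, h2⟩ := main h ι
  refine ⟨h1, h2, fun hF P Q hPQ => ?_⟩
  have h3 : finrank ℚ (pointSpace σ W ι) = 0 := by
    have h4 : finrank ℚ (Forms W ι) = 0 := by
      rw [hF]
      exact finrank_bot ℚ _
    omega
  have h5 : pointSpace σ W ι = ⊥ := Submodule.finrank_eq_zero.1 h3
  have h6 : point σ P Q - point σ W W ∈ pointSpace σ W ι :=
    Submodule.subset_span ⟨P, Q, hPQ, rfl⟩
  rw [h5, Submodule.mem_bot, sub_eq_zero] at h6
  exact h6

end Pool.Agent.Results.MP_9207e0_ag.PointsOverSubspaces
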