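import Pool.Agent.Q72.DP.SurfNum

/-!
# Zero-cycles on surfaces over number fields and squares of divisors on ruled threefolds

`𝒱` is the class of smooth projective varieties over `k = ℚ̄` (or any class of smooth proper varieties
over a field `k` closed under products), `C` the Chow groups with rational coefficients (in the form
of their formal properties, `IsChowProj`); `numFam C X j ⊆ CH^j(X)` is the group of numerically
trivial classes (`IsNumTriv`). For a surface `S`, `numFam C S 2` is the group of zero-cycles of degree
zero with rational coefficients. `Bun f m c ξ` means that `f` is the projective bundle of a vector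
bundle of rank `m` with Chern classes `c`, and `ξ` is the class of `O(1)`; the hypothesis
`RankTwoBundles` consists of the projective bundle formula and the known theorem of Schwarzenberger on
rank two bundles on surfaces (Serre's construction).

Theorem. For every surface `S` without numerically trivial divisors (for instance a K3 surface) the
following are equivalent:
* `CH²(S)` has dimension one;
* all zero-cycles of degree zero vanish;
* every vector bundle of rank two on `S` with `c₁ = 0` and `c₂` of degree zero has `c₂ = 0`;
* for every threefold `P` which is a `ℙ¹`-bundle over `S` and every divisor `G` on `P`: if `G²` is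
  numerically trivial then `G² = 0` in `CH²(P)`.
-/

open CategoryTheory AlgebraicGeometry

set_option autoImplicit false

universe u v w

namespace Pool.Agent.Results.MP_9207e0_ag.SquaresOnRuledThreefolds

open Pool.Agent.H914 Pool.Agent.W492.BB Pool.Agent.TH133 Pool.Agent.TH829.Prime Pool.Agent.Q72.DP

/-- For a surface without numerically trivial divisors (a K3 surface), the group of zero-cycles has
dimension one if and only if, on the threefolds which are `ℙ¹`-bundles over `S`, the numerically
trivial squares of divisors vanish. -/
theorem result {k : Type u} [Field k] {𝒱 : VarClass k} (C : TheoryData.{u, v, 0} 𝒱 ℚ)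
    [IsChowProj C] (hne : ∀ X : 𝒱.Obj, (1 : C.A X) ≠ 0) (Bun : BundleClass C)
    (hB : RankTwoBundles Bun) (S : 𝒱.Obj) (hS : S.dim = 2) (h1 : numFam C S 1 = ⊥) :
    [Module.finrank ℚ (C.gr S 2) = 1, numFam C S 2 = ⊥, RankTwoTrivial Bun S (numFam C S 2),
      SquaresTrivial Bun S (fun P => numFam C P 2)].TFAE :=
  num_tfae hne hB hS h1

end Pool.Agent.Results.MP_9207e0_ag.SquaresOnRuledThreefolds
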